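import Pool.Agent.L5helper59.NC.Forms
import Pool.Agent.L5helper67.NC.CubicAll
import Pool.Agent.L5helper11.Cub.TotalRank

/-!
# A cubic lower bound for the determinantal complexity of the permanent

Let `m ≥ 1`. If the `m × m` permanent is the determinant of an `n × n` matrix of affine linear forms
over a field of characteristic zero, or over `ℂ` only a limit of such determinants, or if the padded
permanent `x₀ ^ (n - m) perm_m` is a limit of determinants of linear forms over `ℂ`, then
`n ≥ (m / 2912) ^ 3`. The ranks of the `m ^ 2` coefficient matrices add up to at least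
`(m / 2912) ^ 3` as well, whatever the size of the matrices. Every weakly skew circuit for `perm_m`
has `s` gates with `2 s + 1 ≥ (m / 2912) ^ 3`.

Proof.
1. If `F = det A` with affine forms in `k` variables, `A` of size `n`, then `F = 0` has few points
   at which the gradient is parallel to a given vector and which are nondegenerate. At such a point
   `A` has corank one, so with kernel and cokernel vectors `v, u` one gets the nondegenerate
   zeros of `A(x) v = 0`, `uᵀ A(x) = 0`, `uᵀ A_w v = 0`, and the weighted Bezout inequality gives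
   at most `(1 + ρ) ^ (2n - 1) 2 ^ (k - 1) ρ ^ (- k)` of them, for every `ρ > 0`, roughly
   `(4 e n / k) ^ k`.
2. The polynomial `x₀ + ∑ z < N, e_{q+1}(x_{z,1}, …, x_{z,N})`, `N = 2 q`, in `N ^ 2 + 1` variables
   has `(q!) ^ (2 N)` such points: the two halves of each group are orderings of the `q`-th roots of
   unity.
3. Put `x_{z,i}` into the cell `(i, i + z)` of a matrix with `N` rows and `2 N` columns. The sum
   over `z < N` of the sums of all `(q+1) × (q+1)` subpermanents of the matrices
   `t ^ ((j - i - z) ^ 2) y_{ij}` tends to the polynomial of 2 (without `x₀`) as `t → 0`.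
   This sum is the sum over all row sets `I` and column sets `J` with `q + 1` elements of
   `per (t ^ ((j - i) ^ 2) y_{ij})_{I,J}` times a function of the sums of the elements of `I` and of
   `J`. An adder tree, built from gates with two more rows and columns each, computes the binary
   digits of these two sums with `O(N)` more rows and columns; so the polynomial is, up to
   constants, a projection of a permanent of size `O(N)`.
4. Nondegenerate points persist in limits.
-/

open Filter Topology L5helper96.Cub

namespace Pool.Agent.Results.MP_35c45d_lc.CubicBound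

theorem result.{u} (m : ℕ) (hm : 1 ≤ m) (n : ℕ) :
    (∀ (F : Type u) [Field F] [CharZero F]
      (A : Matrix (Fin n) (Fin n) (MvPolynomial (Fin m × Fin m) F)),
      (∀ i j, (A i j).totalDegree ≤ 1) →
      A.det = Matrix.permanent (Matrix.of fun i j => MvPolynomial.X (i, j)) →
      ((m : ℝ) / 2912) ^ 3 ≤ n ∧
      ((m : ℝ) / 2912) ^ 3 ≤
        (∑ v, (A.map (MvPolynomial.coeff (Finsupp.single v 1))).rank : ℕ)) ∧
    (∀ A : ℕ → Matrix (Fin n) (Fin n) (MvPolynomial (Fin m × Fin m) ℂ),
      (∀ k i j, (A k i j).totalDegree ≤ 1) →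
      (∀ d, Tendsto (fun k => MvPolynomial.coeff d (A k).det) atTop
        (𝓝 (MvPolynomial.coeff d (Matrix.permanent (Matrix.of fun i j : Fin m =>
          (MvPolynomial.X (i, j) : MvPolynomial (Fin m × Fin m) ℂ)))))) →
      ((m : ℝ) / 2912) ^ 3 ≤ n) ∧
    (∀ (N : ℕ → ℕ) (A : ∀ k, Matrix (Fin (N k)) (Fin (N k)) (MvPolynomial (Fin m × Fin m) ℂ)),
      (∀ k i j, (A k i j).totalDegree ≤ 1) →
      (∀ k, ∑ v, ((A k).map (MvPolynomial.coeff (Finsupp.single v 1))).rank ≤ n) →
      (∀ d, Tendsto (fun k => MvPolynomial.coeff d (A k).det) atTop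
        (𝓝 (MvPolynomial.coeff d (Matrix.permanent (Matrix.of fun i j : Fin m =>
          (MvPolynomial.X (i, j) : MvPolynomial (Fin m × Fin m) ℂ)))))) →
      ((m : ℝ) / 2912) ^ 3 ≤ n) ∧
    (∀ A : ℕ → Matrix (Fin n) (Fin n) (MvPolynomial (Option (Fin m × Fin m)) ℂ),
      (∀ k i j, (A k i j).IsHomogeneous 1) →
      (∀ d, Tendsto (fun k => MvPolynomial.coeff d (A k).det) atTop
        (𝓝 (MvPolynomial.coeff d (MvPolynomial.X none ^ (n - m) *
          Matrix.permanent (Matrix.of fun i j : Fin m =>
            (MvPolynomial.X (some (i, j)) : MvPolynomial (Option (Fin m × Fin m)) ℂ)))))) →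
      ((m : ℝ) / 2912) ^ 3 ≤ n) ∧
    (∀ (F : Type u) [Field F] [CharZero F] (l : List (MvPolynomial (Fin m × Fin m) F)) (s : ℕ),
      WS l s →
      (Matrix.permanent (Matrix.of fun i j => MvPolynomial.X (i, j)) ∈ l ∨
        Input (Matrix.permanent (Matrix.of fun i j : Fin m =>
          (MvPolynomial.X (i, j) : MvPolynomial (Fin m × Fin m) F)))) →
      ((m : ℝ) / 2912) ^ 3 ≤ 2 * (s : ℝ) + 1) := by
  have hB : ∀ m M : ℕ, 1 ≤ m → L5helper59.DC.BorderRep m M →
      ((m : ℝ) / 2912) ^ 3 ≤ (M : ℝ) + 1 := fun m M _ H => L5helper67.NC.cubic_bound m M H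
  exact ⟨fun _ _ _ A hA hdet => ⟨L5helper59.NC.field_bound_of hB m n hm A hA hdet,
      L5helper11.Cub.field_rank_bound_of hB m n hm A hA hdet⟩,
    fun A hA hlim => L5helper59.NC.border_bound_of hB m n hm A hA hlim,
    fun N A hA hR hlim => L5helper11.Cub.rank_bound_of hB m n hm N A hA hR hlim,
    fun A hA hlim => L5helper59.NC.padded_bound_of hB m n hm A
      (fun k i j => (hA k i j).totalDegree_le) hlim,
    fun _ _ _ l s h hf => L5helper59.NC.ws_bound_of hB m s hm l h hf⟩

end Pool.Agent.Results.MP_35c45d_lc.CubicBound
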