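import Pool.Agent.L5helper59.DM.Main

/-!
# Matrices of affine forms which are singular at all zeros of the permanent

Let `m ≥ 1`. If an `n × n` matrix of affine linear forms in the entries of an `m × m` matrix `x` is
not always singular, but is singular whenever the permanent of `x` is zero, then
`n ≥ (m / 2912) ^ 3`. In other words, every nonzero multiple of the `m × m` permanent has
determinantal complexity at least `(m / 2912) ^ 3`. The same holds for real matrices of affine
forms whose determinant has the sign of the permanent.

Proof. Let `det A = g P ^ (d + n)`, where `P` is the permanent and does not divide `g`, and let some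
entry of the adjugate be `r P ^ d` with `n ≥ 1`, `P` not dividing `r`; such an entry exists, since
otherwise `P ^ (d + n)` would divide the adjugate. Changing one entry of `A` by a constant `- c`
gives the determinant `P ^ d (g P ^ n - c r)`. Take a projection of `P` with many nondegenerate
points, as in the cubic bound for the permanent itself; a small perturbation moves these points off
the zeros of `g` and `r`. For small `c = θ ^ n` the polynomial `g P ^ n - c r` has as many
nondegenerate points (put `P = θ z`). Their number is bounded as for every determinant.
-/

set_option autoImplicit false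

open MvPolynomial

namespace Pool.Agent.Results.MP_35c45d_lc.SingularityTest

/-- **Singularity tests for the zeros and for the sign of the permanent.** Let `m ≥ 1` and let `A`
be an `n × n` matrix of affine linear forms in the `m ^ 2` entries of a matrix `x`.

1. If over `ℂ` the determinant of `A` is not the zero polynomial, but `A` is singular at all zeros
`x` of the permanent outside a hypersurface `E = 0` which does not contain all of them, then
`n ≥ (m / 2912) ^ 3`.

2. If over `ℝ` the determinant of `A` is positive where the permanent is positive and negative where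
it is negative, for all real `x` outside a hypersurface `E = 0`, `E` not a multiple of the
permanent, then `n ≥ (m / 2912) ^ 3`. -/
theorem result (m : ℕ) (hm : 1 ≤ m) (n : ℕ) :
    (∀ A : Matrix (Fin n) (Fin n) (MvPolynomial (Fin m × Fin m) ℂ),
      (∀ i j, (A i j).totalDegree ≤ 1) → A.det ≠ 0 →
      ∀ E : MvPolynomial (Fin m × Fin m) ℂ,
      ¬ Matrix.permanent (Matrix.of fun i j => X (i, j)) ∣ E →
      (∀ x : Fin m × Fin m → ℂ, eval x E ≠ 0 →
        Matrix.permanent (Matrix.of fun i j => x (i, j)) = 0 → (A.map (eval x)).det = 0) →
      ((m : ℝ) / 2912) ^ 3 ≤ n) ∧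
    ∀ A : Matrix (Fin n) (Fin n) (MvPolynomial (Fin m × Fin m) ℝ),
      (∀ i j, (A i j).totalDegree ≤ 1) →
      ∀ E : MvPolynomial (Fin m × Fin m) ℝ,
      ¬ Matrix.permanent (Matrix.of fun i j => X (i, j)) ∣ E →
      (∀ x : Fin m × Fin m → ℝ, eval x E ≠ 0 →
        0 < Matrix.permanent (Matrix.of fun i j => x (i, j)) → 0 < (A.map (eval x)).det) →
      (∀ x : Fin m × Fin m → ℝ, eval x E ≠ 0 →
        Matrix.permanent (Matrix.of fun i j => x (i, j)) < 0 → (A.map (eval x)).det < 0) →
      ((m : ℝ) / 2912) ^ 3 ≤ n := by
  refine ⟨fun A hA h0 E hE h => ?_, fun A hA E hE h1 h2 => ?_⟩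
  · refine Pool.Agent.L5helper59.DM.singular_bound m n hm A hA h0
      (Pool.Agent.L5helper59.DM.dvd_of_singular m hm E A.det hE fun x hx hx0 => ?_)
    rw [RingHom.map_det]
    exact h x hx hx0
  · refine Pool.Agent.L5helper59.DM.sign_bound m n hm A hA E hE (fun x hx hx0 => ?_)
      fun x hx hx0 => ?_
    · rw [RingHom.map_det]
      exact h1 x hx hx0
    · rw [RingHom.map_det]
      exact h2 x hx hx0

end Pool.Agent.Results.MP_35c45d_lc.SingularityTest
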