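import Pool.Agent.L5helper57.LC.Defs
import Pool.Agent.L5helper57.LC.Main

/-!
# MP_35c45d_lc: circuits for the permanent must break the symmetry of most indices

We consider circuits with `S` gates of the following kind, with inputs `x_ij` for `i, j < m`. Every
gate `g` has `t` matrices of size `N × N` over the complex numbers whose entries are polynomials of
degree at most `D` in the inputs plus linear forms in the values of earlier gates. Its value is an
arbitrary function of the traces of all products of these matrices, that is, of the invariants of the
matrices under simultaneous conjugation. The output is the determinant of one more such matrix. For
`N = 1` these circuits include the circuits whose gates are arbitrary functions of linear forms. Other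
examples are gates which compute products and arbitrary symmetric functions (with diagonal matrices)
and determinants. For `S = 0` and `D = 1` the circuit is a determinantal representation of size `N`.

The permanent does not change when the rows and the columns are renamed in the same way,
`x_ij ↦ x_{g(i) g(j)}`. The circuit *respects* a permutation `r` of the inputs if there is a
permutation `σ` of the gates such that the matrices of `σ g` are simultaneously similar to the
permuted matrices of `g`, for all `g`, and such that the matrix of the output is `P M Q` or
`P Mᵀ Q` for the permuted matrix `M` and matrices `P`, `Q`.

Theorem: let `B_1, …, B_s` be pairwise disjoint sets of four indices. If the circuit respects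
`x_ij ↦ x_{g(i) g(j)}` for every three-cycle `g` inside one of the sets and if its output determines
the permanent of integer matrices with entries of absolute value at most `4`, then
`s < 1000 (1 + D + log ((S + 1) N))`. The same is true if the output only determines the permanent
modulo a prime number `p ≥ 5`. In particular a circuit of this kind which computes the permanent, or
approximates it with an error less than `1 / 2`, has size `2 ^ (c m)` unless it breaks the symmetry
of most of the quadruples. Circuits which compute the permanent only in the limit approximate it with
an error less than `1 / 2` at these finitely many matrices.

Proof. The three-cycles generate the product of the alternating groups of degree four, which acts on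
functions of the matrix `x`. A space of functions which is invariant and on which a character of the
Klein groups occurs that is not trivial on `w` of the blocks contains `3 ^ w` conjugate characters.
The test matrices code parities, one for each vertex of an expander graph. Consider the values of the
gates as functions of the parities `b`. The Klein groups act on the test matrices by adding
boundaries to `b`. So a set `y` of vertices in the Fourier support of a function in a small invariant
space has a boundary with `O(log ((S + 1) N))` edges, if `y` is small. Because of the expansion, the
small sets with a small boundary are closed under symmetric differences. So this property extends
from the matrices to their products, to the traces, to the polynomials in the traces (this is the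
orbit of the gate), and therefore to the value of the gate. The matrix of the output is invertible
at the zero matrix or at the identity matrix. Normalise it there. Then the Fourier coefficients of
the traces of its powers vanish for `y ≠ 0`, and so the determinant does not depend on `b`. But the
permanent does.
-/

set_option autoImplicit false

open Equiv

namespace Pool.Agent.Results.MP_35c45d_lc.SymmetricCircuits

open Pool.Agent.L5helper57.LC (Circuit)

/-- **Main theorem.** Let `p = 0` or let `p ≥ 5` be a prime number, let `B_1, …, B_s` be pairwise
disjoint sets of four of the `m` indices, and let `C` be a circuit with inputs `x_ij`, `S` gates and
`N × N` matrices of degree `D` which respects `x_ij ↦ x_{g(i) g(j)}` for every three-cycle `g` which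
moves only elements of one of the sets. If the output of `C` is different for `x` and `y` whenever
`x` and `y` are integer matrices with entries of absolute value at most `4` whose permanents are not
congruent modulo `p` (not equal if `p = 0`), then `s < 1000 (1 + D + log ((S + 1) N))`. -/
theorem result (p : ℕ) (hp : p = 0 ∨ p.Prime ∧ 5 ≤ p) (m s S N t D : ℕ)
    (B : Fin s → Finset (Fin m)) (hB : ∀ j, (B j).card = 4)
    (hdisj : ∀ i j, i ≠ j → Disjoint (B i) (B j)) (C : Circuit (Fin m × Fin m) S N t D)
    (hresp : ∀ j (g : Perm (Fin m)), g.IsThreeCycle → (∀ i, i ∉ B j → g i = i) →
      C.Respects (g.prodCongr g))
    (hC : ∀ x y : Matrix (Fin m) (Fin m) ℤ, (∀ i j, |x i j| ≤ 4 ∧ |y i j| ≤ 4) →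
      ¬ x.permanent ≡ y.permanent [ZMOD p] →
      C.output (fun i => (x i.1 i.2 : ℂ)) ≠ C.output (fun i => (y i.1 i.2 : ℂ))) :
    (s : ℝ) < 1000 * (1 + D + Real.logb 2 ((S + 1) * N)) :=
  Pool.Agent.L5helper57.LC.circuit_bound p hp m s S N t D B hB hdisj C hresp hC

end Pool.Agent.Results.MP_35c45d_lc.SymmetricCircuits
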