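import Pool.Agent.L5helper59.ZT.Final

/-!
# Multiples of the permanent, zero tests and sign tests

Let `m ≥ 1`. If a nonzero multiple `g * perm_m` of the complex `m × m` permanent, `g` any
polynomial, is computed by nested systems of linear equations, or is only a limit of polynomials
of bounded degree which are computed so, then the total number of unknowns `N` of the `r` systems is
at least `m ^ 2 (log₂ m - 14) / 2 ^ 21` and at least
`r m ^ 2 ((m / 2 ^ 14) ^ (1 / r) / e - 1) / 2 ^ 21`.

The same bounds hold for the systems solved by random computation trees which decide whether the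
permanent of a complex matrix is zero, and by random real computation trees which find the sign of
the permanent of a real matrix. Linear operations and tests are free, the trees need to be right
only for most choices of the random bits and outside a hypersurface.

A multiplication is a system with one unknown, an algebraic branching program with `n` nodes (hence
a weakly skew circuit) is a system with `n` unknowns.

Proof. Let `F = g * perm_m`. Along the projections of `perm_m` which tend to
`x₀ + T`, `T = ∑ z < N, e_{q+1}(x_{z,1}, …, x_{z,N})`, `N = 2 q`, slightly perturbed, the normalised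
first factors have a limit `g₀ ≠ 0`. Let `g₀ (x₀ + T) = g₁ (x₀ + T) ^ e` with `g₁` prime to
`x₀ + T`. Then `λ g₁ (x₀ + T) ^ e` has for small `η > 0` as many nondegenerate points with gradient
`(η ^ e, -1, c)` as `T` has nondegenerate critical points relative to a linear form `c`, namely
`(q!) ^ (2 N)`. This number persists for the perturbed projections and is bounded by the degree
bound for nested systems. If the polynomials tested by a tree on the path of almost all inputs are
not divisible by the irreducible polynomial `perm_m`, then the tree gives the same answer on almost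
all zeros of the permanent.
-/

set_option autoImplicit false

open MvPolynomial Filter Topology

namespace Pool.Agent.Results.MP_35c45d_lc.ZeroTest

open Pool.Agent.L5helper88.Model Pool.Agent.L5helper59.ZT

/-- Three lower bounds for the sizes `s` of nested systems: the first one contains a positive
integer parameter `ρ` for each system (`t` is a list of pairs `(size, ρ)`), the second one only
depends on the total size, the third one on the total size and the number of systems. -/
def Large (m : ℕ) (s : List ℕ) : Prop :=
  (∀ t : List (ℕ × ℕ), (∀ a ∈ t, 1 ≤ a.2) → t.map Prod.fst = s →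
    ((m : ℝ) / 2 ^ 14) ^ (m ^ 2) ≤
      (t.map fun a => (a.2 : ℝ) ^ (m ^ 2) * (1 + 1 / (a.2 : ℝ)) ^ (2 ^ 21 * a.1)).prod) ∧
  (m : ℝ) ^ 2 * (Real.logb 2 m - 14) / 2 ^ 21 ≤ (s.sum : ℝ) ∧
  (s ≠ [] → (s.length : ℝ) * (m : ℝ) ^ 2 *
    (((m : ℝ) / 2 ^ 14) ^ (1 / (s.length : ℝ)) / Real.exp 1 - 1) / 2 ^ 21 ≤ (s.sum : ℝ))

/-- **Lower bounds for the multiples of the permanent, for zero tests and for sign tests.** Let
`m ≥ 1`.

1. If a nonzero multiple of the `m × m` permanent over `ℂ` is approximated by polynomials which are
computed by nested systems of the sizes `s` (for instance, if it is computed by such systems), then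
`s` is large.

2. Let random computation trees decide, with probability at least `1 / 2 + δ` for each matrix
outside a hypersurface `E = 0` which does not contain all matrices with permanent zero, whether the
permanent is zero. Then for almost all matrices the sizes of the systems which are solved are
large with probability at least `2 δ`.

3. Let random real computation trees find, with probability at least `1 / 2 + δ` for each real
matrix with nonzero permanent outside a hypersurface `E = 0`, the sign of the permanent, where `E`
is not a multiple of the permanent. Then there is a polynomial `D`, not zero at all real matrices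
with permanent zero, such that the sizes of the systems are large with probability at least `2 δ`
for all real matrices sufficiently close to a real matrix `x₀` with permanent zero and
`D(x₀) ≠ 0`. -/
theorem result (m : ℕ) (hm : 1 ≤ m) :
    (∀ g : MvPolynomial (Fin m × Fin m) ℂ, g ≠ 0 → ∀ s : List ℕ,
      SolvedApproximately (g * perm ℂ m) s → Large m s) ∧
    (∀ (Ω : Type) [Fintype Ω] (w : Ω → ℝ) (T : Ω → Tree (Fin m × Fin m) [] [])
      (E : MvPolynomial (Fin m × Fin m) ℂ) (δ : ℝ), IsProb w → ¬ perm ℂ m ∣ E →
      (∀ x, eval x E ≠ 0 → 1 / 2 + δ ≤ prob w fun ω => RightOn (T ω) x) →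
      ∃ D : MvPolynomial (Fin m × Fin m) ℂ, D ≠ 0 ∧ ∀ x, eval x D ≠ 0 →
        2 * δ ≤ prob w fun ω => Large m ((T ω).sizes x)) ∧
    ∀ (Ω : Type) [Fintype Ω] (w : Ω → ℝ) (T : Ω → RTree (Fin m × Fin m) [] [])
      (E : MvPolynomial (Fin m × Fin m) ℝ) (δ : ℝ), IsProb w → ¬ perm ℝ m ∣ E →
      (∀ x, eval x E ≠ 0 → Matrix.permanent (Matrix.of fun i j => x (i, j)) ≠ 0 →
        1 / 2 + δ ≤ prob w fun ω => RightSign (T ω) x) →
      ∃ D : MvPolynomial (Fin m × Fin m) ℝ,
        (∃ x₀ : Fin m × Fin m → ℝ, Matrix.permanent (Matrix.of fun i j => x₀ (i, j)) = 0 ∧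
          eval x₀ D ≠ 0) ∧
        ∀ x₀ : Fin m × Fin m → ℝ, Matrix.permanent (Matrix.of fun i j => x₀ (i, j)) = 0 →
          eval x₀ D ≠ 0 → ∀ᶠ x in 𝓝 x₀, 2 * δ ≤ prob w fun ω => Large m ((T ω).sizes x) := by
  have large : ∀ s : List ℕ, First m s → Large m s := fun s h1 =>
    ⟨h1, Pool.Agent.L5helper88.NS.nested_log m hm s h1,
      fun hne => Pool.Agent.L5helper88.NS.nested_rounds m hm s hne h1⟩
  refine ⟨fun g hg s hs => large s (mult_first m hm g hg s hs), ?_, ?_⟩
  · intro Ω _ w T E δ hw hE hright
    obtain ⟨D, hD, h⟩ := complex_trees m hm w hw T E hE δ hright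
    exact ⟨D, hD, fun x hx => (h x hx).trans (prob_mono hw fun ω h1 => large _ h1)⟩
  · intro Ω _ w T E δ hw hE hright
    obtain ⟨D, hD, h⟩ := real_trees m hm w hw T E hE δ hright
    exact ⟨D, hD, fun x₀ hx₀ hx₀' => (h x₀ hx₀ hx₀').mono fun x hx =>
      hx.trans (prob_mono hw fun ω h1 => large _ h1)⟩

end Pool.Agent.Results.MP_35c45d_lc.ZeroTest
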